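import Pool.Agent.Lib.MP_ea1188_al.KG.Iface

/-! # Module HOM: homotopy invariance up to `2`-power torsion (MP_ea1188_al, helper17). -/

set_option autoImplicit false

namespace KG.H17

open Matrix Polynomial KG

section

variable {R : Type} [Ring R]

/-! ### Certificates -/

/-- `w` is the inverse of `x`, resp. `x` is idempotent -/
def Cert (κ : Kind) {A : Type} [Ring A] (x w : A) : Prop :=
  match κ with
  | .unit => x * w = 1 ∧ w * x = 1
  | .idem => x * x = x

lemma Cert.P {κ : Kind} {A : Type} [Ring A] {x w : A} (h : Cert κ x w) : P κ x := by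
  cases κ with
  | unit =>
    obtain ⟨h1, h2⟩ : x * w = 1 ∧ w * x = 1 := h
    exact ⟨⟨x, w, h1, h2⟩, rfl⟩
  | idem => exact h

lemma Cert.map {κ : Kind} {A B : Type} [Ring A] [Ring B] (f : A →+* B) {x w : A}
    (h : Cert κ x w) : Cert κ (f x) (f w) := by
  cases κ with
  | unit =>
    obtain ⟨h1, h2⟩ : x * w = 1 ∧ w * x = 1 := h
    exact ⟨by rw [← map_mul, h1, map_one], by rw [← map_mul, h2, map_one]⟩
  | idem =>
    have h' : x * x = x := h
    show f x * f x = f x
    rw [← map_mul, h']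

lemma exists_cert {κ : Kind} {A : Type} [Ring A] {x : A} (h : KG.P κ x) :
    ∃ w, Cert κ x w := by
  cases κ with
  | unit =>
    obtain ⟨u, rfl⟩ : IsUnit x := h
    exact ⟨↑u⁻¹, u.mul_inv, u.inv_mul⟩
  | idem => exact ⟨x, h⟩

/-! ### Ring homs to `2 × 2` matrices -/

/-- the matrix over `ι × Fin 2` -/
def blow {A : Type} [Ring A] {ι : Type} [Fintype ι] [DecidableEq ι]
    (Φ : A →+* Matrix (Fin 2) (Fin 2) R) (x : Matrix ι ι A) : Matrix (ι × Fin 2) (ι × Fin 2) R :=
  compRingEquiv ι (Fin 2) R (x.map Φ)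

lemma blow_apply {A : Type} [Ring A] {ι : Type} [Fintype ι] [DecidableEq ι]
    (Φ : A →+* Matrix (Fin 2) (Fin 2) R) (x : Matrix ι ι A) (i j : ι × Fin 2) :
    blow Φ x i j = Φ (x i.1 j.1) i.2 j.2 := rfl

/-- as a ring hom -/
def blowHom {A : Type} [Ring A] (ι : Type) [Fintype ι] [DecidableEq ι]
    (Φ : A →+* Matrix (Fin 2) (Fin 2) R) : Matrix ι ι A →+* Matrix (ι × Fin 2) (ι × Fin 2) R :=
  (compRingEquiv ι (Fin 2) R).toRingHom.comp Φ.mapMatrix

lemma blowHom_apply {A : Type} [Ring A] {ι : Type} [Fintype ι] [DecidableEq ι]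
    (Φ : A →+* Matrix (Fin 2) (Fin 2) R) (x : Matrix ι ι A) : blowHom ι Φ x = blow Φ x := rfl

lemma P_blow {κ : Kind} {A : Type} [Ring A] {ι : Type} [Fintype ι] [DecidableEq ι]
    (Φ : A →+* Matrix (Fin 2) (Fin 2) R) {x : Matrix ι ι A} (h : P κ x) : P κ (blow Φ x) := by
  rw [← blowHom_apply]
  exact P_map _ h

/-- `ι × Fin 2 ≃ ι ⊕ ι` -/
def eq2 (ι : Type) : ι × Fin 2 ≃ ι ⊕ ι where
  toFun p := if p.2 = 0 then Sum.inl p.1 else Sum.inr p.1
  invFun := Sum.elim (fun i => (i, 0)) (fun i => (i, 1))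
  left_inv := by
    rintro ⟨i, j⟩
    fin_cases j <;> simp
  right_inv := by
    rintro (i | i) <;> simp

lemma cls_upper {κ : Kind} (T : KT κ R) {A : Type} [Ring A] {ι : Type} [Fintype ι] [DecidableEq ι]
    (Φ : A →+* Matrix (Fin 2) (Fin 2) R) (φ : A →+* R) (h10 : ∀ p, Φ p 1 0 = 0)
    (h00 : ∀ p, Φ p 0 0 = φ p) (h11 : ∀ p, Φ p 1 1 = φ p) {x : Matrix ι ι A} (h : P κ x) :
    T.cls (blow Φ x) = (2 : ℕ) • T.cls (x.map φ) := by
  have e1 := T.rein (eq2 ι) (blow Φ x) (P_blow Φ h)
  have e2 : Matrix.reindex (eq2 ι) (eq2 ι) (blow Φ x)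
      = fromBlocks (x.map φ) (x.map (fun p => Φ p 0 1)) 0 (x.map φ) := by
    ext i j
    rcases i with i | i <;> rcases j with j | j <;>
      simp [eq2, blow_apply, h10, h00, h11]
  rw [← e1, e2, T.tri _ _ _ (P_mapMatrix φ h) (P_mapMatrix φ h), two_nsmul]
  rw [← e2]
  have h3 := P_blow Φ h
  have h4 : Matrix.reindex (eq2 ι) (eq2 ι) (blow Φ x)
      = (Matrix.reindexRingEquiv R (eq2 ι)) (blow Φ x) := rfl
  rw [h4]
  exact P_map (Matrix.reindexRingEquiv R (eq2 ι)).toRingHom h3

lemma cls_lower {κ : Kind} (T : KT κ R) {A : Type} [Ring A] {ι : Type} [Fintype ι] [DecidableEq ι]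
    (Φ : A →+* Matrix (Fin 2) (Fin 2) R) (φ : A →+* R) (h01 : ∀ p, Φ p 0 1 = 0)
    (h00 : ∀ p, Φ p 0 0 = φ p) (h11 : ∀ p, Φ p 1 1 = φ p) {x : Matrix ι ι A} (h : P κ x) :
    T.cls (blow Φ x) = (2 : ℕ) • T.cls (x.map φ) := by
  set e := (eq2 ι).trans (Equiv.sumComm ι ι) with he
  have e1 := T.rein e (blow Φ x) (P_blow Φ h)
  have e2 : Matrix.reindex e e (blow Φ x)
      = fromBlocks (x.map φ) (x.map (fun p => Φ p 1 0)) 0 (x.map φ) := by
    ext i j
    rcases i with i | i <;> rcases j with j | j <;>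
      simp [he, eq2, blow_apply, h01, h00, h11]
  rw [← e1, e2, T.tri _ _ _ (P_mapMatrix φ h) (P_mapMatrix φ h), two_nsmul]
  rw [← e2]
  have h3 := P_blow Φ h
  have h4 : Matrix.reindex e e (blow Φ x)
      = (Matrix.reindexRingEquiv R e) (blow Φ x) := rfl
  rw [h4]
  exact P_map (Matrix.reindexRingEquiv R e).toRingHom h3

/-! ### The substitution `t ↦ !![0, c; 1, 0]` -/

/-- the scalar embedding composed with evaluation at a matrix commuting with scalars -/
noncomputable def sub {S : Type} [Ring S] (f : R →+* S) (U : Matrix (Fin 2) (Fin 2) S)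
    (hU : ∀ a, Commute ((scalar (Fin 2)).comp f a) U) : R[X] →+* Matrix (Fin 2) (Fin 2) S :=
  eval₂RingHom' ((scalar (Fin 2)).comp f) U hU

/-- evaluation at one -/
noncomputable def ev1 : R[X] →+* R := eval₂RingHom' (RingHom.id R) 1 (fun a => Commute.one_right a)

lemma ev1_apply (p : R[X]) : ev1 p = p.eval 1 := rfl

/-- evaluation at zero -/
noncomputable def ev0 : R[X] →+* R := eval₂RingHom' (RingHom.id R) 0 (fun a => Commute.zero_right a)

lemma ev0_apply (p : R[X]) : ev0 p = p.eval 0 := rfl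

lemma comm1 {S : Type} [Ring S] (f : R →+* S) (a b c d : S) (ha : ∀ r, Commute (f r) a)
    (hb : ∀ r, Commute (f r) b) (hc : ∀ r, Commute (f r) c) (hd : ∀ r, Commute (f r) d) :
    ∀ r, Commute ((scalar (Fin 2)).comp f r) !![a, b; c, d] := by
  intro r
  show (scalar (Fin 2) (f r)) * !![a, b; c, d] = !![a, b; c, d] * (scalar (Fin 2) (f r))
  ext i j
  fin_cases i <;> fin_cases j <;>
    simp [Matrix.mul_apply, Fin.sum_univ_two, scalar_apply, (ha r).eq, (hb r).eq, (hc r).eq,
      (hd r).eq]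

/-- the substitution over the polynomial ring -/
noncomputable def big : R[X] →+* Matrix (Fin 2) (Fin 2) R[X] :=
  sub C !![0, X; 1, 0] (comm1 C 0 X 1 0 (fun _ => Commute.zero_right _)
    (fun r => (X_mul_C r).symm) (fun _ => Commute.one_right _) (fun _ => Commute.zero_right _))

/-- substitution with `s = 0` -/
noncomputable def s0 : R[X] →+* Matrix (Fin 2) (Fin 2) R :=
  sub (RingHom.id R) !![0, 0; 1, 0] (comm1 _ 0 0 1 0 (fun _ => Commute.zero_right _)
    (fun _ => Commute.zero_right _) (fun _ => Commute.one_right _) (fun _ => Commute.zero_right _))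

/-- substitution with `s = 1` -/
noncomputable def s1 : R[X] →+* Matrix (Fin 2) (Fin 2) R :=
  sub (RingHom.id R) !![0, 1; 1, 0] (comm1 _ 0 1 1 0 (fun _ => Commute.zero_right _)
    (fun _ => Commute.one_right _) (fun _ => Commute.one_right _) (fun _ => Commute.zero_right _))

/-- the unipotent substitution -/
noncomputable def su : R[X] →+* Matrix (Fin 2) (Fin 2) R :=
  sub (RingHom.id R) !![1, 1; 0, 1] (comm1 _ 1 1 0 1 (fun _ => Commute.one_right _)
    (fun _ => Commute.one_right _) (fun _ => Commute.zero_right _) (fun _ => Commute.one_right _))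

lemma sub_C {S : Type} [Ring S] (f : R →+* S) (U : Matrix (Fin 2) (Fin 2) S)
    (hU : ∀ a, Commute ((scalar (Fin 2)).comp f a) U) (r : R) :
    sub f U hU (C r) = scalar (Fin 2) (f r) := by
  show eval₂ _ _ _ = _
  rw [eval₂_C]; rfl

lemma sub_X {S : Type} [Ring S] (f : R →+* S) (U : Matrix (Fin 2) (Fin 2) S)
    (hU : ∀ a, Commute ((scalar (Fin 2)).comp f a) U) :
    sub f U hU X = U := by
  show eval₂ _ _ _ = _
  rw [eval₂_X]

lemma sub_monomial {S : Type} [Ring S] (f : R →+* S) (U : Matrix (Fin 2) (Fin 2) S)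
    (hU : ∀ a, Commute ((scalar (Fin 2)).comp f a) U) (n : ℕ) (r : R) :
    sub f U hU (monomial n r) = scalar (Fin 2) (f r) * U ^ n := by
  show eval₂ _ _ _ = _
  rw [eval₂_monomial]; rfl

lemma scalar_mul_apply {S : Type} [Ring S] (a : S) (M : Matrix (Fin 2) (Fin 2) S) (i j : Fin 2) :
    (scalar (Fin 2) a * M) i j = a * M i j := by
  rw [scalar_apply, diagonal_mul]

lemma ev0_big : (ev0 (R := R)).mapMatrix.comp big = s0 := by
  apply ringHom_ext
  · intro a
    show (ev0 (R := R)).mapMatrix (big (C a)) = s0 (C a)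
    rw [big, s0, sub_C, sub_C]
    ext i j
    fin_cases i <;> fin_cases j <;> simp [ev0_apply]
  · show (ev0 (R := R)).mapMatrix (big X) = s0 X
    rw [big, s0, sub_X, sub_X]
    ext i j
    fin_cases i <;> fin_cases j <;> simp [ev0_apply]

lemma ev1_big : (ev1 (R := R)).mapMatrix.comp big = s1 := by
  apply ringHom_ext
  · intro a
    show (ev1 (R := R)).mapMatrix (big (C a)) = s1 (C a)
    rw [big, s1, sub_C, sub_C]
    ext i j
    fin_cases i <;> fin_cases j <;> simp [ev1_apply]
  · show (ev1 (R := R)).mapMatrix (big X) = s1 X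
    rw [big, s1, sub_X, sub_X]
    ext i j
    fin_cases i <;> fin_cases j <;> simp [ev1_apply]

lemma s0_entries (p : R[X]) : s0 p 0 1 = 0 ∧ s0 p 0 0 = ev0 p ∧ s0 p 1 1 = ev0 p := by
  induction p using Polynomial.induction_on' with
  | add p q hp hq =>
    simp only [map_add, Matrix.add_apply, hp, hq, add_zero, and_self]
  | monomial n a =>
    have hp : ∀ n : ℕ, (!![0, 0; 1, 0] : Matrix (Fin 2) (Fin 2) R) ^ (n + 2) = 0 := by
      intro n
      rw [pow_add, pow_two]
      have : (!![0, 0; 1, 0] : Matrix (Fin 2) (Fin 2) R) * !![0, 0; 1, 0] = 0 := by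
        ext i j
        fin_cases i <;> fin_cases j <;> simp [Matrix.mul_apply, Fin.sum_univ_two]
      rw [this, mul_zero]
    rw [s0, sub_monomial, ev0_apply]
    rcases n with _ | _ | n
    · simp [scalar_apply]
    · simp [scalar_apply]
    · rw [hp n]
      simp

lemma su_entries (p : R[X]) : su p 1 0 = 0 ∧ su p 0 0 = ev1 p ∧ su p 1 1 = ev1 p := by
  induction p using Polynomial.induction_on' with
  | add p q hp hq =>
    simp only [map_add, Matrix.add_apply, hp, hq, add_zero, and_self]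
  | monomial n a =>
    have hp : ∀ n : ℕ, (!![1, 1; 0, 1] : Matrix (Fin 2) (Fin 2) R) ^ n = !![1, (n : R); 0, 1] := by
      intro n
      induction n with
      | zero => ext i j; fin_cases i <;> fin_cases j <;> simp
      | succ n ih =>
        rw [pow_succ, ih]
        ext i j
        fin_cases i <;> fin_cases j <;> simp [Matrix.mul_apply, Fin.sum_univ_two, add_comm]
    rw [su, sub_monomial, ev1_apply, hp n]
    simp [scalar_apply]

/-! ### Conjugation in characteristic two -/

/-- conjugation -/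
def conjHom {S : Type} [Ring S] (g h : S) (h1 : g * h = 1) (h2 : h * g = 1) : S →+* S where
  toFun m := g * m * h
  map_one' := by rw [mul_one, h1]
  map_mul' a b := by
    calc g * (a * b) * h = g * a * 1 * b * h := by simp only [mul_one, mul_assoc]
      _ = g * a * h * (g * b * h) := by rw [← h2]; simp only [mul_assoc]
  map_zero' := by simp
  map_add' a b := by rw [mul_add, add_mul]

/-- the conjugating matrix -/
def gg : Matrix (Fin 2) (Fin 2) R := !![1, 0; 1, 1]

lemma gg_gg (h2 : (1 : R) + 1 = 0) : (gg : Matrix (Fin 2) (Fin 2) R) * gg = 1 := by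
  unfold gg
  ext i j
  fin_cases i <;> fin_cases j <;> simp [Matrix.mul_apply, Fin.sum_univ_two, h2]

lemma gg_s1 (h2 : (1 : R) + 1 = 0) (p : R[X]) : gg * s1 p * gg = su p := by
  have h : (conjHom (gg : Matrix (Fin 2) (Fin 2) R) gg (gg_gg h2) (gg_gg h2)).comp s1 = su := by
    apply ringHom_ext
    · intro a
      show gg * s1 (C a) * gg = su (C a)
      rw [s1, su, sub_C, sub_C]
      have h3 : (gg : Matrix (Fin 2) (Fin 2) R) * scalar (Fin 2) (RingHom.id R a)
          = scalar (Fin 2) (RingHom.id R a) * gg := by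
        ext i j
        fin_cases i <;> fin_cases j <;>
          simp [gg, Matrix.mul_apply, Fin.sum_univ_two, scalar_apply]
      rw [h3, mul_assoc, gg_gg h2, mul_one]
    · show gg * s1 (X : R[X]) * gg = su (X : R[X])
      rw [s1, su, sub_X, sub_X]
      unfold gg
      ext i j
      fin_cases i <;> fin_cases j <;> simp [Matrix.mul_apply, Fin.sum_univ_two, h2]
  exact congrArg (fun f : R[X] →+* Matrix (Fin 2) (Fin 2) R => f p) h

lemma cls_s1 {κ : Kind} (T : KT κ R) (h2 : (1 : R) + 1 = 0) {ι : Type} [Fintype ι]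
    [DecidableEq ι] {x : Matrix ι ι R[X]} (h : P κ x) : T.cls (blow s1 x) = T.cls (blow su x) := by
  set G : Matrix (ι × Fin 2) (ι × Fin 2) R :=
    compRingEquiv ι (Fin 2) R (diagonal (fun _ => gg)) with hG
  have hGG : G * G = 1 := by
    rw [hG, ← map_mul, diagonal_mul_diagonal]
    simp only [gg_gg h2]
    rw [diagonal_one]
    exact map_one (compRingEquiv ι (Fin 2) R)
  have h3 : G * blow s1 x * G = blow su x := by
    unfold blow
    rw [hG, ← map_mul, ← map_mul]
    congr 1
    ext1 i j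
    rw [mul_diagonal, diagonal_mul, map_apply, map_apply, gg_s1 h2]
  rw [← h3]
  exact (T.conj G G _ hGG hGG (P_blow s1 h)).symm

/-! ### Degrees -/

lemma pow_deg : ∀ (i : ℕ) (j k : Fin 2),
    (((!![0, X; 1, 0] : Matrix (Fin 2) (Fin 2) R[X]) ^ i) j k).natDegree ≤ (i + 1) / 2 := by
  intro i
  induction i using Nat.twoStepInduction with
  | zero => intro j k; fin_cases j <;> fin_cases k <;> simp
  | one =>
    intro j k
    fin_cases j <;> fin_cases k <;> simp [natDegree_X_le]
  | more n ih _ =>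
    intro j k
    have h1 : (!![0, X; 1, 0] : Matrix (Fin 2) (Fin 2) R[X]) ^ (n + 2)
        = scalar (Fin 2) X * (!![0, X; 1, 0] : Matrix (Fin 2) (Fin 2) R[X]) ^ n := by
      rw [add_comm n 2, pow_add]
      congr 1
      rw [pow_two]
      ext a b
      fin_cases a <;> fin_cases b <;> simp [Matrix.mul_apply, Fin.sum_univ_two, scalar_apply]
    rw [h1, scalar_mul_apply]
    refine natDegree_mul_le.trans ?_
    have h2 := ih j k
    have h3 := natDegree_X_le (R := R)
    omega

lemma big_deg (p : R[X]) (d : ℕ) (hp : p.natDegree ≤ d) (j k : Fin 2) :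
    (big p j k).natDegree ≤ (d + 1) / 2 := by
  have h1 : big p = ∑ i ∈ Finset.range (d + 1), ((scalar (Fin 2)).comp C) (p.coeff i) *
      (!![0, X; 1, 0] : Matrix (Fin 2) (Fin 2) R[X]) ^ i := by
    show eval₂ _ _ _ = _
    exact eval₂_eq_sum_range' _ (by omega) _
  rw [h1, Matrix.sum_apply]
  apply natDegree_sum_le_of_forall_le
  intro i hi
  rw [Finset.mem_range] at hi
  show (((scalar (Fin 2)) (C (p.coeff i)) *
    (!![0, X; 1, 0] : Matrix (Fin 2) (Fin 2) R[X]) ^ i) j k).natDegree ≤ _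
  rw [scalar_mul_apply]
  refine natDegree_mul_le.trans ?_
  rw [natDegree_C]
  have := pow_deg (R := R) i j k
  omega

/-! ### The base case -/

lemma coeff_mul0 {ι : Type} [Fintype ι] [DecidableEq ι] (x w : Matrix ι ι R[X]) :
    (x * w).map (fun p => p.coeff 0) = x.map (fun p => p.coeff 0) * w.map (fun p => p.coeff 0) := by
  ext i j
  simp only [map_apply, Matrix.mul_apply, finsetSum_coeff, mul_coeff_zero]

lemma coeff_mul1 {ι : Type} [Fintype ι] [DecidableEq ι] (x w : Matrix ι ι R[X]) :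
    (x * w).map (fun p => p.coeff 1) = x.map (fun p => p.coeff 0) * w.map (fun p => p.coeff 1) +
      x.map (fun p => p.coeff 1) * w.map (fun p => p.coeff 0) := by
  ext i j
  simp only [map_apply, Matrix.mul_apply, Matrix.add_apply, finsetSum_coeff, mul_coeff_one,
    Finset.sum_add_distrib]

lemma coeff_mul2 {ι : Type} [Fintype ι] [DecidableEq ι] (x w : Matrix ι ι R[X])
    (hx : ∀ i j, (x i j).natDegree ≤ 1) (hw : ∀ i j, (w i j).natDegree ≤ 1) :
    (x * w).map (fun p => p.coeff 2) = x.map (fun p => p.coeff 1) * w.map (fun p => p.coeff 1) := by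
  ext i j
  simp only [map_apply, Matrix.mul_apply, finsetSum_coeff]
  apply Finset.sum_congr rfl
  intro k _
  exact coeff_mul_add_eq_of_natDegree_le (hx i k) (hw k j)

lemma map_one_coeff {ι : Type} [Fintype ι] [DecidableEq ι] (n : ℕ) (hn : n ≠ 0) :
    (1 : Matrix ι ι R[X]).map (fun p => p.coeff n) = 0 := by
  ext i j
  rw [map_apply, Matrix.one_apply]
  split_ifs with h
  · rw [coeff_one, if_neg hn]; rfl
  · rfl

lemma map_one_coeff0 {ι : Type} [Fintype ι] [DecidableEq ι] :
    (1 : Matrix ι ι R[X]).map (fun p => p.coeff 0) = 1 := by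
  ext i j
  rw [map_apply, Matrix.one_apply, Matrix.one_apply]
  split_ifs with h
  · rw [coeff_one, if_pos rfl]
  · rfl

lemma linC_of_cert {κ : Kind} {ι : Type} [Fintype ι] [DecidableEq ι] (x w : Matrix ι ι R[X])
    (h : Cert κ x w) (hx : ∀ i j, (x i j).natDegree ≤ 1) (hw : ∀ i j, (w i j).natDegree ≤ 1) :
    LinC κ (x.map (fun p => p.coeff 0)) (x.map (fun p => p.coeff 1)) := by
  cases κ with
  | unit =>
    obtain ⟨h1, h2⟩ : x * w = 1 ∧ w * x = 1 := h
    refine ⟨w.map (fun p => p.coeff 0), w.map (fun p => p.coeff 1), ?_, ?_, ?_, ?_, ?_, ?_⟩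
    · rw [← coeff_mul0, h1, map_one_coeff0]
    · rw [← coeff_mul0, h2, map_one_coeff0]
    · rw [← coeff_mul1, h1, map_one_coeff 1 one_ne_zero]
    · rw [← coeff_mul1, h2, map_one_coeff 1 one_ne_zero]
    · rw [← coeff_mul2 x w hx hw, h1, map_one_coeff 2 two_ne_zero]
    · rw [← coeff_mul2 w x hw hx, h2, map_one_coeff 2 two_ne_zero]
  | idem =>
    have h' : x * x = x := h
    refine ⟨?_, ?_, ?_⟩
    · rw [← coeff_mul0, h']
    · rw [← coeff_mul1, h']
    · rw [← coeff_mul2 x x hx hx, h']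
      ext i j
      rw [map_apply, coeff_eq_zero_of_natDegree_lt (lt_of_le_of_lt (hx i j) one_lt_two)]
      rfl

/-! ### The main induction -/

lemma main {κ : Kind} (T : KT κ R) (h2 : (1 : R) + 1 = 0) (d : ℕ) :
    ∀ (ι : Type) [Fintype ι] [DecidableEq ι] (x w : Matrix ι ι R[X]), Cert κ x w →
      (∀ i j, (x i j).natDegree ≤ d) → (∀ i j, (w i j).natDegree ≤ d) →
      ∃ M : ℕ, (2 ^ M : ℕ) • T.cls (x.map ev1) = (2 ^ M : ℕ) • T.cls (x.map ev0) := by
  induction d using Nat.strong_induction_on with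
  | _ d ih =>
    intro ι _ _ x w hc hx hw
    by_cases hd : d ≤ 1
    · refine ⟨1, ?_⟩
      have h3 := T.lin _ _ (linC_of_cert x w hc (fun i j => (hx i j).trans hd)
        (fun i j => (hw i j).trans hd))
      have e0 : x.map (fun p => p.coeff 0) = x.map ev0 := by
        ext i j
        rw [map_apply, map_apply, ev0_apply, coeff_zero_eq_eval_zero]
      have e1 : x.map (fun p => p.coeff 0) + x.map (fun p => p.coeff 1) = x.map ev1 := by
        ext i j
        rw [Matrix.add_apply, map_apply, map_apply, map_apply, ev1_apply,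
          eval_eq_sum_range' (n := 2) (by have := hx i j; omega)]
        simp [Finset.sum_range_succ]
      rw [e1, e0] at h3
      simpa using h3
    · push Not at hd
      have h4 : (d + 1) / 2 < d := by omega
      obtain ⟨M, hM⟩ := ih _ h4 (ι × Fin 2) (blow big x) (blow big w)
        (by rw [← blowHom_apply, ← blowHom_apply]; exact hc.map _)
        (fun i j => big_deg _ d (hx _ _) _ _) (fun i j => big_deg _ d (hw _ _) _ _)
      refine ⟨M + 1, ?_⟩
      have f0 : (blow big x).map ev0 = blow s0 x := by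
        ext i j
        rw [map_apply, blow_apply, blow_apply, ← ev0_big]
        rfl
      have f1 : (blow big x).map ev1 = blow s1 x := by
        ext i j
        rw [map_apply, blow_apply, blow_apply, ← ev1_big]
        rfl
      rw [f0, f1, cls_s1 T h2 hc.P,
        cls_lower T s0 ev0 (fun p => (s0_entries p).1) (fun p => (s0_entries p).2.1)
          (fun p => (s0_entries p).2.2) hc.P,
        cls_upper T su ev1 (fun p => (su_entries p).1) (fun p => (su_entries p).2.1)
          (fun p => (su_entries p).2.2) hc.P, smul_smul, smul_smul] at hM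
      rw [pow_succ]
      exact hM

end

theorem hom : KG.HomotopyS := by
  intro κ R _ _ T ι _ _ x hx
  have h2 : (1 : R) + 1 = 0 := by
    have h3 : algebraMap (ZMod 2) R (1 + 1) = 0 := by
      have h4 : (1 + 1 : ZMod 2) = 0 := by decide
      rw [h4, map_zero]
    rwa [map_add, map_one] at h3
  obtain ⟨w, hw⟩ := exists_cert hx
  obtain ⟨d, hd⟩ : ∃ d, (∀ i j, (x i j).natDegree ≤ d) ∧ (∀ i j, (w i j).natDegree ≤ d) := by
    refine ⟨∑ i, ∑ j, ((x i j).natDegree + (w i j).natDegree), fun i j => ?_, fun i j => ?_⟩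
    · have h3 := Finset.single_le_sum (f := fun j => (x i j).natDegree + (w i j).natDegree)
        (fun _ _ => Nat.zero_le _) (Finset.mem_univ j)
      have h4 := Finset.single_le_sum
        (f := fun i => ∑ j, ((x i j).natDegree + (w i j).natDegree))
        (fun _ _ => Nat.zero_le _) (Finset.mem_univ i)
      exact (by omega : ∀ a b c e : ℕ, a + b ≤ c → c ≤ e → a ≤ e) _ _ _ _ h3 h4
    · have h3 := Finset.single_le_sum (f := fun j => (x i j).natDegree + (w i j).natDegree)
        (fun _ _ => Nat.zero_le _) (Finset.mem_univ j)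
      have h4 := Finset.single_le_sum
        (f := fun i => ∑ j, ((x i j).natDegree + (w i j).natDegree))
        (fun _ _ => Nat.zero_le _) (Finset.mem_univ i)
      exact (by omega : ∀ a b c e : ℕ, a + b ≤ c → c ≤ e → b ≤ e) _ _ _ _ h3 h4
  obtain ⟨M, hM⟩ := main T h2 d ι x w hw hd.1 hd.2
  exact ⟨M, hM⟩

end KG.H17
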